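import Pool.Agent.Helper43.RK.StT

/-!
# Project RK, module DTC: construction of the ring and of the data `Dt`
-/

set_option autoImplicit false

namespace Pool.Agent.Helper78.RK

open Pool.Agent.Helper43.RK Polynomial

section ring

variable (n : ℕ)

/-- the defining polynomial -/
noncomputable def fq : (ZMod 2)[X] := X ^ (2 ^ n) + (X + 1)

lemma eval_fq {R : Type} [CommRing R] (i : ZMod 2 →+* R) (x : R) :
    eval₂ i x (fq n) = x ^ (2 ^ n) + (x + 1) := by
  simp [fq]

/-- the ring -/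
abbrev Rq : Type := AdjoinRoot (fq n)

/-- the generator -/
noncomputable def y0 : Rq n := AdjoinRoot.root (fq n)

lemma h11 : (1 : Rq n) + 1 = 0 := by
  have h := congrArg (AdjoinRoot.of (fq n)) (show (1 : ZMod 2) + 1 = 0 by decide)
  simpa using h

lemma two_q (r : Rq n) : r + r = 0 := by
  have h : r + r = (1 + 1) * r := by ring
  rw [h, h11, zero_mul]

lemma root_q : y0 n ^ (2 ^ n) = y0 n + 1 := by
  have h := AdjoinRoot.eval₂_root (fq n)
  have h2 : y0 n ^ (2 ^ n) + (y0 n + 1) = 0 := by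
    rw [eval_fq] at h
    exact h
  have h3 := two_q n (y0 n + 1)
  linear_combination h2 - h3

lemma add_one_pow {R : Type} [CommRing R] (h : (1 : R) + 1 = 0) (x : R) (m : ℕ) :
    (x + 1) ^ (2 ^ m) = x ^ (2 ^ m) + 1 := by
  induction m with
  | zero => simp
  | succ m ih =>
    rw [pow_succ, pow_mul, ih, pow_mul]
    linear_combination x ^ 2 ^ m * h

lemma y0_pow_iter (j : ℕ) : y0 n ^ ((2 ^ n) ^ (2 * j + 1)) = y0 n + 1 := by
  have h2 : ∀ x : Rq n, (x + 1) ^ (2 ^ n) = x ^ (2 ^ n) + 1 := fun x => add_one_pow (h11 n) x n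
  have h3 : ∀ x : Rq n, x + 1 + 1 = x := by
    intro x
    have := h11 n
    linear_combination this
  induction j with
  | zero => simpa using root_q n
  | succ j ih =>
    have : (2 ^ n) ^ (2 * (j + 1) + 1) = (2 ^ n) ^ (2 * j + 1) * 2 ^ n * 2 ^ n := by ring
    rw [this, pow_mul, pow_mul, ih, h2, root_q, h3, root_q]

lemma monic_q (hn : 1 ≤ n) : (fq n).Monic := by
  apply monic_X_pow_add
  have h1 : (X + 1 : (ZMod 2)[X]) = X + C 1 := by simp
  rw [h1, degree_X_add_C]
  have : 1 < 2 ^ n := Nat.one_lt_two_pow (by omega)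
  exact_mod_cast this

lemma finite_q (hn : 1 ≤ n) : Finite (Rq n) := by
  have h1 : Module.Finite (ZMod 2) (Rq n) := (monic_q n hn).finite_adjoinRoot
  exact Module.finite_of_finite (ZMod 2)

/-- `y` -/
noncomputable def yu : (Rq n)ˣ where
  val := y0 n
  inv := y0 n ^ (2 ^ n - 1) + 1
  val_inv := by
    have h : y0 n * (y0 n ^ (2 ^ n - 1) + 1) = y0 n ^ (2 ^ n) + y0 n := by
      have : 2 ^ n = (2 ^ n - 1) + 1 := by
        have := Nat.one_le_two_pow (n := n)
        omega
      conv_rhs => rw [this, pow_succ]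
      ring
    rw [h, root_q]
    have := two_q n (y0 n)
    linear_combination this
  inv_val := by
    have h : (y0 n ^ (2 ^ n - 1) + 1) * y0 n = y0 n ^ (2 ^ n) + y0 n := by
      have : 2 ^ n = (2 ^ n - 1) + 1 := by
        have := Nat.one_le_two_pow (n := n)
        omega
      conv_rhs => rw [this, pow_succ]
      ring
    rw [h, root_q]
    have := two_q n (y0 n)
    linear_combination this

lemma gen_q (S : Subring (Rq n)) (h : y0 n ∈ S) : S = ⊤ := by
  rw [eq_top_iff]
  rintro r -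
  obtain ⟨p, rfl⟩ := AdjoinRoot.mk_surjective r
  induction p using Polynomial.induction_on' with
  | add p q hp hq =>
    rw [map_add]
    exact S.add_mem hp hq
  | monomial m c =>
    rw [← C_mul_X_pow_eq_monomial, map_mul, map_pow, AdjoinRoot.mk_X, AdjoinRoot.mk_C]
    refine S.mul_mem ?_ (S.pow_mem h m)
    have hc : c = 0 ∨ c = 1 := by
      revert c
      decide
    rcases hc with rfl | rfl
    · rw [map_zero]; exact S.zero_mem
    · rw [map_one]; exact S.one_mem

/-- the automorphism -/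
noncomputable def barq : Rq n →+* Rq n :=
  AdjoinRoot.lift (AdjoinRoot.of (fq n)) (y0 n + 1) (by
    have h2 : ∀ x : Rq n, (x + 1) ^ (2 ^ n) = x ^ (2 ^ n) + 1 := fun x => add_one_pow (h11 n) x n
    rw [eval_fq, h2, root_q]
    have h3 := h11 n
    have h4 := two_q n (y0 n)
    linear_combination h4 + 2 * h3)

lemma barq_y0 : barq n (y0 n) = y0 n + 1 := by
  simp [barq, y0]

lemma barq_barq (r : Rq n) : barq n (barq n r) = r := by
  have h : RingHom.eqLocus ((barq n).comp (barq n)) (RingHom.id (Rq n)) = ⊤ := by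
    apply gen_q
    show barq n (barq n (y0 n)) = y0 n
    rw [barq_y0, map_add, barq_y0, map_one]
    have h3 := h11 n
    linear_combination h3
  have : r ∈ RingHom.eqLocus ((barq n).comp (barq n)) (RingHom.id (Rq n)) := by
    rw [h]; trivial
  exact this

end ring

/-- the representation of the ring -/
lemma rep_q (n : ℕ) {E : Type} [AddCommGroup E] [Module (ZMod 2) E] (T : E →ₗ[ZMod 2] E)
    (hT : ∀ e, (T ^ (2 ^ n)) e = T e + e) :
    ∃ ρ : Rq n →+* Module.End (ZMod 2) E, ρ (y0 n) = T := by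
  have h2 : ∀ e : E, e + e = 0 := by
    intro e
    have : ((1 + 1 : ZMod 2)) • e = e + e := by rw [add_smul, one_smul]
    rw [← this, show (1 + 1 : ZMod 2) = 0 by decide, zero_smul]
  have hf : (aeval T : (ZMod 2)[X] →ₐ[ZMod 2] Module.End (ZMod 2) E) (fq n) = 0 := by
    ext e
    simp only [fq, map_add, map_pow, aeval_X, map_one, LinearMap.add_apply, hT,
      LinearMap.zero_apply, Module.End.one_apply]
    exact h2 _
  have hI : ∀ p : (ZMod 2)[X], p ∈ Ideal.span {fq n} →
      (aeval T : (ZMod 2)[X] →ₐ[ZMod 2] Module.End (ZMod 2) E).toRingHom p = 0 := by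
    intro p hp
    rw [Ideal.mem_span_singleton] at hp
    obtain ⟨q, rfl⟩ := hp
    show (aeval T : (ZMod 2)[X] →ₐ[ZMod 2] Module.End (ZMod 2) E) (fq n * q) = 0
    rw [map_mul, hf, zero_mul]
  refine ⟨Ideal.Quotient.lift (Ideal.span {fq n}) _ hI, ?_⟩
  have h3 : (aeval T : (ZMod 2)[X] →ₐ[ZMod 2] Module.End (ZMod 2) E).toRingHom X = T := by
    simp
  exact (Ideal.Quotient.lift_mk (Ideal.span {fq n}) _ hI).trans h3

section grp

variable {G : Type} [Group G]

lemma cj_conj (a t : G) (i s : ℤ) : t ^ s * cj a t i * (t ^ s)⁻¹ = cj a t (i - s) := by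
  have h1 : t ^ (-(i - s)) = t ^ s * t ^ (-i) := by rw [← zpow_add]; congr 1; ring
  have h2 : t ^ (i - s) = t ^ i * (t ^ s)⁻¹ := by rw [← zpow_neg, ← zpow_add]; congr 1
  simp only [cj]
  rw [h1, h2]
  group

lemma conj_mem (S : Set G) (s : G) (h : ∀ x ∈ S, s * x * s⁻¹ ∈ Subgroup.closure S) (x : G)
    (hx : x ∈ Subgroup.closure S) : s * x * s⁻¹ ∈ Subgroup.closure S := by
  induction hx using Subgroup.closure_induction with
  | mem x hx => exact h x hx
  | one => simp
  | mul x y _ _ hx hy =>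
    have : s * (x * y) * s⁻¹ = (s * x * s⁻¹) * (s * y * s⁻¹) := by group
    rw [this]
    exact Subgroup.mul_mem _ hx hy
  | inv x _ hx =>
    have : s * x⁻¹ * s⁻¹ = (s * x * s⁻¹)⁻¹ := by group
    rw [this]
    exact Subgroup.inv_mem _ hx

lemma closure_comm (S : Set G) (h : ∀ x ∈ S, ∀ y ∈ S, x * y = y * x) (x : G)
    (hx : x ∈ Subgroup.closure S) (y : G) (hy : y ∈ Subgroup.closure S) : x * y = y * x := by
  let _ := Subgroup.closureCommGroupOfComm h
  have := mul_comm (⟨x, hx⟩ : Subgroup.closure S) ⟨y, hy⟩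
  exact congrArg Subtype.val this

lemma exp_two (S : Set G) (h : ∀ x ∈ S, ∀ y ∈ S, x * y = y * x) (h2 : ∀ x ∈ S, x * x = 1) (x : G)
    (hx : x ∈ Subgroup.closure S) : x * x = 1 := by
  induction hx using Subgroup.closure_induction with
  | mem x hx => exact h2 x hx
  | one => simp
  | mul x y hx' hy' hx hy =>
    have hc := closure_comm S h x hx' y hy'
    calc x * y * (x * y) = (x * y) * (y * x) := by nth_rw 2 [hc]
      _ = x * (y * y) * x := by group
      _ = 1 := by rw [hy, mul_one, hx]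
  | inv x _ hx =>
    have : x⁻¹ * x⁻¹ = (x * x)⁻¹ := by group
    rw [this, hx, inv_one]

/-- conjugation as an endomorphism -/
def cU (U : Subgroup G) (s : G) (hs : ∀ x ∈ U, s * x * s⁻¹ ∈ U) : U →* U where
  toFun u := ⟨s * (u : G) * s⁻¹, hs u u.2⟩
  map_one' := by ext; simp
  map_mul' u v := by
    ext
    show s * ((u : G) * (v : G)) * s⁻¹ = s * (u : G) * s⁻¹ * (s * (v : G) * s⁻¹)
    group

end grp

theorem hDTC : StDTC := by
  intro n β hn hβ hnβ G _ g a t h
  obtain ⟨a2, fa, ft, w2, wt, th2, tht, -, com, al, -⟩ := h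
  obtain ⟨w, hw⟩ : ∃ w, w = g ^ β * a := ⟨_, rfl⟩
  obtain ⟨θ, hθ⟩ : ∃ θ, θ = (g ^ β) ^ 4 := ⟨_, rfl⟩
  rw [← hw] at w2 wt
  rw [← hθ] at tht
  have winv : w⁻¹ = w := inv_eq_of_mul_eq_one_left w2
  have ainv : a⁻¹ = a := inv_eq_of_mul_eq_one_left a2
  rw [winv] at wt
  have θ2 : θ * θ = 1 := by
    rw [hθ, ← pow_add]; exact th2
  have θinv : θ⁻¹ = θ := inv_eq_of_mul_eq_one_left θ2
  have θa : Commute θ a := by
    have h1 : θ = (g ^ 4) ^ β := by rw [hθ, ← pow_mul, ← pow_mul, mul_comm]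
    rw [h1]
    exact Commute.pow_left (show Commute (g ^ 4) a from fa) β
  have θg : Commute θ (g ^ β) := by rw [hθ]; exact Commute.pow_left (Commute.refl _) 4
  have θw : Commute θ w := by rw [hw]; exact θg.mul_right θa
  have θt : θ * t * θ⁻¹ = t ^ (2 ^ β) := by
    rw [θinv] at tht ⊢; exact tht
  -- the abelian group
  obtain ⟨S, hS⟩ : ∃ S, S = Set.range (cj a t) := ⟨_, rfl⟩
  have hSc : ∀ x ∈ S, ∀ y ∈ S, x * y = y * x := by
    rw [hS]; rintro _ ⟨i, rfl⟩ _ ⟨j, rfl⟩; exact com i j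
  have hS2 : ∀ x ∈ S, x * x = 1 := by
    rw [hS]
    rintro _ ⟨i, rfl⟩
    simp only [cj]
    calc t ^ (-i) * a * t ^ i * (t ^ (-i) * a * t ^ i) = t ^ (-i) * (a * a) * t ^ i := by group
      _ = 1 := by rw [a2]; group
  have hUc := closure_comm S hSc
  have hU2 := exp_two S hSc hS2
  have hSi : ∀ i, cj a t i ∈ Subgroup.closure S := by
    intro i
    apply Subgroup.subset_closure
    rw [hS]; exact ⟨i, rfl⟩
  have hcjt : ∀ i, t * cj a t i * t⁻¹ = cj a t (i - 1) := by
    intro i
    have := cj_conj a t i 1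
    rwa [zpow_one] at this
  have htU : ∀ x ∈ Subgroup.closure S, t * x * t⁻¹ ∈ Subgroup.closure S := by
    apply conj_mem
    intro x hx
    rw [hS] at hx
    obtain ⟨i, rfl⟩ := hx
    rw [hcjt]; exact hSi _
  have hθU : ∀ x ∈ Subgroup.closure S, θ * x * θ⁻¹ ∈ Subgroup.closure S := by
    apply conj_mem
    intro x hx
    rw [hS] at hx
    obtain ⟨i, rfl⟩ := hx
    have h1 : θ * cj a t i * θ⁻¹ = cj a t ((2 ^ β : ℕ) * i) := by
      have h2 : ∀ j : ℤ, θ * t ^ j * θ⁻¹ = t ^ (((2 ^ β : ℕ) : ℤ) * j) := by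
        intro j
        rw [← conj_zpow, θt, zpow_mul, zpow_natCast]
      have h3 : θ * a * θ⁻¹ = a := by rw [θa.eq]; group
      calc θ * cj a t i * θ⁻¹ = (θ * t ^ (-i) * θ⁻¹) * (θ * a * θ⁻¹) * (θ * t ^ i * θ⁻¹) := by
            simp only [cj]; group
        _ = cj a t ((2 ^ β : ℕ) * i) := by
            rw [h2, h2, h3]
            simp only [cj, mul_neg]
    rw [h1]; exact hSi _
  let _ := Subgroup.closureCommGroupOfComm hSc
  obtain ⟨E, hE⟩ : ∃ E : Type, E = Additive (Subgroup.closure S) := ⟨_, rfl⟩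
  let _ : Module (ZMod 2) (Additive (Subgroup.closure S)) := AddCommGroup.zmodModule (n := 2) (by
    intro x
    rw [two_nsmul]
    apply Additive.toMul.injective
    apply Subtype.ext
    exact hU2 _ (Additive.toMul x).2)
  let T : Additive (Subgroup.closure S) →ₗ[ZMod 2] Additive (Subgroup.closure S) :=
    AddMonoidHom.toZModLinearMap 2 (MonoidHom.toAdditive (cU _ t htU))
  let Θ : Additive (Subgroup.closure S) →+ Additive (Subgroup.closure S) :=
    MonoidHom.toAdditive (cU _ θ hθU)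
  let v : Additive (Subgroup.closure S) → G := fun e => ((Additive.toMul e : Subgroup.closure S) : G)
  have vinj : ∀ e e', v e = v e' → e = e' := by
    intro e e' h
    apply Additive.toMul.injective
    exact Subtype.ext h
  have vadd : ∀ e e', v (e + e') = v e * v e' := fun e e' => rfl
  have vT : ∀ e, v (T e) = t * v e * t⁻¹ := fun e => rfl
  have vΘ : ∀ e, v (Θ e) = θ * v e * θ⁻¹ := fun e => rfl
  have vTk : ∀ (k : ℕ) (e), v ((T ^ k) e) = t ^ k * v e * (t ^ k)⁻¹ := by
    intro k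
    induction k with
    | zero => intro e; simp
    | succ k ih =>
      intro e
      rw [pow_succ', Module.End.mul_apply, vT, ih, pow_succ']
      group
  have hT : ∀ e, (T ^ (2 ^ n)) e = T e + e := by
    intro e
    apply vinj
    rw [vTk, vadd, vT]
    have hx := (Additive.toMul e).2
    have hve : v e = ((Additive.toMul e : Subgroup.closure S) : G) := rfl
    rw [hve]
    generalize ((Additive.toMul e : Subgroup.closure S) : G) = x at hx
    induction hx using Subgroup.closure_induction with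
    | mem x hx =>
      rw [hS] at hx
      obtain ⟨i, rfl⟩ := hx
      have h1 := cj_conj a t i ((2 ^ n : ℕ) : ℤ)
      rw [zpow_natCast] at h1
      rw [h1, hcjt]
      have h2 := congrArg (fun x => t ^ (1 - i) * x * (t ^ (1 - i))⁻¹) al
      rw [cj_conj] at h2
      have h3 : t ^ (1 - i) * (a * cj a t 1) * (t ^ (1 - i))⁻¹ =
          (t ^ (1 - i) * cj a t 0 * (t ^ (1 - i))⁻¹) * (t ^ (1 - i) * cj a t 1 * (t ^ (1 - i))⁻¹) := by
        have : cj a t 0 = a := by simp [cj]
        rw [this]; group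
      rw [h3, cj_conj, cj_conj] at h2
      have e1 : (1 : ℤ) - 2 ^ n - (1 - i) = i - ((2 ^ n : ℕ) : ℤ) := by push_cast; ring
      have e2 : (0 : ℤ) - (1 - i) = i - 1 := by ring
      have e3 : (1 : ℤ) - (1 - i) = i := by ring
      rw [e1, e2, e3] at h2
      exact h2
    | one => simp
    | mul x y hx' hy' hx hy =>
      have hc := hUc (t * y * t⁻¹) (htU y hy') x hx'
      calc t ^ 2 ^ n * (x * y) * (t ^ 2 ^ n)⁻¹
          = (t ^ 2 ^ n * x * (t ^ 2 ^ n)⁻¹) * (t ^ 2 ^ n * y * (t ^ 2 ^ n)⁻¹) := by group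
        _ = (t * x * t⁻¹ * x) * (t * y * t⁻¹ * y) := by rw [hx, hy]
        _ = t * x * t⁻¹ * (x * (t * y * t⁻¹)) * y := by group
        _ = t * x * t⁻¹ * ((t * y * t⁻¹) * x) * y := by rw [hc]
        _ = t * (x * y) * t⁻¹ * (x * y) := by group
    | inv x hx' hx =>
      have hc := hUc (t * x⁻¹ * t⁻¹) (htU _ (Subgroup.inv_mem _ hx')) x⁻¹ (Subgroup.inv_mem _ hx')
      calc t ^ 2 ^ n * x⁻¹ * (t ^ 2 ^ n)⁻¹ = (t ^ 2 ^ n * x * (t ^ 2 ^ n)⁻¹)⁻¹ := by group
        _ = (t * x * t⁻¹ * x)⁻¹ := by rw [hx]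
        _ = x⁻¹ * (t * x⁻¹ * t⁻¹) := by group
        _ = t * x⁻¹ * t⁻¹ * x⁻¹ := hc.symm
  obtain ⟨ρ, hρ⟩ := rep_q n T hT
  have ha0 : a ∈ Subgroup.closure S := by
    have := hSi 0
    simpa [cj] using this
  let a0 : Additive (Subgroup.closure S) := Additive.ofMul ⟨a, ha0⟩
  have va0 : v a0 = a := rfl
  let aR : Rq n → G := fun r => v (ρ r a0)
  have aRmem : ∀ r, aR r ∈ Subgroup.closure S := fun r => (Additive.toMul (ρ r a0)).2
  have aRadd : ∀ r r', aR (r + r') = aR r * aR r' := by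
    intro r r'
    show v (ρ (r + r') a0) = v (ρ r a0) * v (ρ r' a0)
    rw [map_add, LinearMap.add_apply, vadd]
  have aR1 : aR 1 = a := by
    show v (ρ 1 a0) = a
    rw [map_one, Module.End.one_apply, va0]
  have haTk : ∀ (k : ℕ) (r), t ^ k * aR r * (t ^ k)⁻¹ = aR (y0 n ^ k * r) := by
    intro k r
    show t ^ k * v (ρ r a0) * (t ^ k)⁻¹ = v (ρ (y0 n ^ k * r) a0)
    rw [map_mul, map_pow, hρ, Module.End.mul_apply, vTk]
  have haT : ∀ r, t * aR r * t⁻¹ = aR (y0 n * r) := by
    intro r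
    have := haTk 1 r
    rwa [pow_one, pow_one] at this
  have hpow : y0 n ^ (2 ^ β) = y0 n + 1 := by
    obtain ⟨m, rfl⟩ := hnβ
    have hm : m % 2 = 1 := by
      rw [Nat.mul_mod] at hβ
      rcases Nat.mod_two_eq_zero_or_one m with h | h
      · rw [h] at hβ; simp at hβ
      · exact h
    obtain ⟨j, hj⟩ : ∃ j, m = 2 * j + 1 := ⟨m / 2, by omega⟩
    rw [pow_mul, hj]
    exact y0_pow_iter n j
  have hbar : ∀ r e, Θ (ρ r e) = ρ (barq n r) (Θ e) := by
    let S' : Subring (Rq n) :=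
      { carrier := {r | ∀ e, Θ (ρ r e) = ρ (barq n r) (Θ e)}
        mul_mem' := by
          intro r r' hr hr' e
          rw [map_mul, map_mul, map_mul, Module.End.mul_apply, Module.End.mul_apply]
          rw [← hr' e, ← hr]
        one_mem' := by
          intro e
          rw [map_one, map_one, map_one, Module.End.one_apply, Module.End.one_apply]
        add_mem' := by
          intro r r' hr hr' e
          rw [map_add, map_add, map_add, LinearMap.add_apply, LinearMap.add_apply, map_add, hr e,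
            hr' e]
        zero_mem' := by
          intro e
          rw [map_zero, map_zero, map_zero, LinearMap.zero_apply, LinearMap.zero_apply, map_zero]
        neg_mem' := by
          intro r hr e
          rw [map_neg, map_neg, map_neg, LinearMap.neg_apply, LinearMap.neg_apply, map_neg, hr e] }
    have hS' : S' = ⊤ := by
      apply gen_q
      show ∀ e, Θ (ρ (y0 n) e) = ρ (barq n (y0 n)) (Θ e)
      intro e
      apply vinj
      rw [barq_y0, ← hpow, map_pow, hρ, vΘ, vT, vTk, vΘ]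
      calc θ * (t * v e * t⁻¹) * θ⁻¹ = (θ * t * θ⁻¹) * (θ * v e * θ⁻¹) * (θ * t * θ⁻¹)⁻¹ := by
            group
        _ = t ^ 2 ^ β * (θ * v e * θ⁻¹) * (t ^ 2 ^ β)⁻¹ := by rw [θt]
    intro r
    have : r ∈ S' := by rw [hS']; trivial
    exact this
  have Θa0 : Θ a0 = a0 := by
    apply vinj
    rw [vΘ, va0, θa.eq]; group
  have aRbar : ∀ r, θ * aR r * θ⁻¹ = aR (barq n r) := by
    intro r
    show θ * v (ρ r a0) * θ⁻¹ = v (ρ (barq n r) a0)
    rw [← vΘ, hbar, Θa0]
  -- conjugation by w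
  have hwt : ∀ k : ℕ, w * t ^ k * w = (t ^ k)⁻¹ := by
    intro k
    have h1 : w * t ^ k * w⁻¹ = (w * t * w⁻¹) ^ k := by rw [conj_pow]
    rw [winv] at h1
    rw [h1, wt, inv_pow]
  have hsw : ∀ (k : ℕ) (x : G), t ^ k * (w * x * w) * (t ^ k)⁻¹ = w * ((t ^ k)⁻¹ * x * t ^ k) * w := by
    intro k x
    have h1 := hwt k
    have h2 : t ^ k * w = w * (t ^ k)⁻¹ := by
      rw [← h1]
      calc t ^ k * w = (1 : G) * t ^ k * w := by group
        _ = (w * w) * t ^ k * w := by rw [w2]
        _ = w * (w * t ^ k * w) := by group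
    have h3 : w * (t ^ k)⁻¹ = t ^ k * w := h2.symm
    calc t ^ k * (w * x * w) * (t ^ k)⁻¹ = (t ^ k * w) * x * (w * (t ^ k)⁻¹) := by group
      _ = (w * (t ^ k)⁻¹) * x * (t ^ k * w) := by rw [h2]
      _ = w * ((t ^ k)⁻¹ * x * t ^ k) * w := by group
  have hwa : w * a = g ^ β := by rw [hw, mul_assoc, a2, mul_one]
  have haw : a * w = (g ^ β)⁻¹ := by
    rw [← hwa, mul_inv_rev, winv, ainv]
  have hc : a * (w * a * w) * a * (w * a * w) = θ := by
    calc a * (w * a * w) * a * (w * a * w) = (a * w) * (a * w) * (a * w) * (a * w) := by group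
      _ = ((g ^ β) ^ 4)⁻¹ := by rw [haw]; group
      _ = θ := by rw [← hθ, θinv]
  let ybu : (Rq n)ˣ := (yu n) ^ (2 ^ n)
  have hybu : (ybu : Rq n) = y0 n + 1 := by
    show (((yu n) ^ (2 ^ n) : (Rq n)ˣ) : Rq n) = y0 n + 1
    rw [Units.val_pow_eq_pow_val]
    exact root_q n
  have hyu : ((yu n : (Rq n)ˣ) : Rq n) = y0 n := rfl
  have hθc : ∀ x : G, θ * x * θ = θ * x * θ⁻¹ := by intro x; rw [θinv]
  let D : Dt (Rq n) G :=
    { y := yu n
      yb := ybu
      bar := barq n
      a := aR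
      b := fun r => w * aR r * w
      Y := t⁻¹
      Yb := (t ^ (2 ^ β))⁻¹
      w := w
      two := two_q n
      hy := by
        rw [hybu, hyu]
        have := two_q n (y0 n)
        linear_combination this
      bary := by rw [hybu, hyu, barq_y0]
      barb := barq_barq n
      gen := gen_q n
      a_add := aRadd
      b_add := by
        intro r r'
        show w * aR (r + r') * w = w * aR r * w * (w * aR r' * w)
        rw [aRadd]
        calc w * (aR r * aR r') * w = w * aR r * (1 : G) * aR r' * w := by group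
          _ = w * aR r * (w * w) * aR r' * w := by rw [w2]
          _ = w * aR r * w * (w * aR r' * w) := by group
      aY := by
        intro r
        rw [inv_inv, haT, hyu]
      bY := by
        intro r
        show t⁻¹⁻¹ * (w * aR r * w) * t⁻¹ = w * aR ((((yu n)⁻¹ : (Rq n)ˣ) : Rq n) * r) * w
        have h1 := hsw 1 (aR r)
        rw [pow_one] at h1
        rw [inv_inv, h1]
        have h2 := haT ((((yu n)⁻¹ : (Rq n)ˣ) : Rq n) * r)
        have h3 : y0 n * ((((yu n)⁻¹ : (Rq n)ˣ) : Rq n) * r) = r := by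
          rw [← hyu, ← mul_assoc, Units.mul_inv, one_mul]
        rw [h3] at h2
        rw [← h2]
        group
      aYb := by
        intro r
        rw [inv_inv, haTk, hpow, hybu]
      bYb := by
        intro r
        show ((t ^ (2 ^ β))⁻¹)⁻¹ * (w * aR r * w) * (t ^ (2 ^ β))⁻¹ =
          w * aR (((ybu⁻¹ : (Rq n)ˣ) : Rq n) * r) * w
        have h1 := hsw (2 ^ β) (aR r)
        rw [inv_inv, h1]
        have h2 := haTk (2 ^ β) (((ybu⁻¹ : (Rq n)ˣ) : Rq n) * r)
        have h3 : y0 n ^ (2 ^ β) * (((ybu⁻¹ : (Rq n)ˣ) : Rq n) * r) = r := by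
          rw [hpow, ← hybu, ← mul_assoc, Units.mul_inv, one_mul]
        rw [h3] at h2
        rw [← h2]
        group
      YYb := by group
      cc := by
        show (aR 1 * (w * aR 1 * w) * aR 1 * (w * aR 1 * w)) *
          (aR 1 * (w * aR 1 * w) * aR 1 * (w * aR 1 * w)) = 1
        rw [aR1, hc, θ2]
      ac := by
        intro r
        show (aR 1 * (w * aR 1 * w) * aR 1 * (w * aR 1 * w)) * aR r *
          (aR 1 * (w * aR 1 * w) * aR 1 * (w * aR 1 * w)) = aR (barq n r)
        rw [aR1, hc, hθc, aRbar]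
      bc := by
        intro r
        show (aR 1 * (w * aR 1 * w) * aR 1 * (w * aR 1 * w)) * (w * aR r * w) *
          (aR 1 * (w * aR 1 * w) * aR 1 * (w * aR 1 * w)) = w * aR (barq n r) * w
        rw [aR1, hc, ← aRbar, ← hθc]
        calc θ * (w * aR r * w) * θ = (θ * w) * aR r * (w * θ) := by group
          _ = (w * θ) * aR r * (θ * w) := by rw [θw.eq]
          _ = w * (θ * aR r * θ) * w := by group
      cY := by
        show (aR 1 * (w * aR 1 * w) * aR 1 * (w * aR 1 * w)) * t⁻¹ *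
          (aR 1 * (w * aR 1 * w) * aR 1 * (w * aR 1 * w)) = (t ^ (2 ^ β))⁻¹
        rw [aR1, hc, hθc, ← θt]
        group
      ww := w2
      aw := fun r => rfl
      wY := by
        rw [inv_inv]
        have h1 : (w * t * w)⁻¹ = w⁻¹ * t⁻¹ * w⁻¹ := by group
        rw [wt, inv_inv, winv] at h1
        exact h1.symm }
  refine ⟨Rq n, inferInstance, finite_q n hn, D, aR1, hw, rfl, ?_, ?_⟩
  · intro r
    rw [← hS]
    exact aRmem r
  · intro i
    have hz : ∀ (j : ℤ) (r : Rq n), t ^ j * aR r * (t ^ j)⁻¹ = aR ((((yu n) ^ j : (Rq n)ˣ) : Rq n) * r) := by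
      intro j
      induction j using Int.induction_on with
      | zero => intro r; simp
      | succ k ih =>
        intro r
        rw [zpow_add_one, zpow_add_one]
        have h1 : t ^ (k : ℤ) * t * aR r * (t ^ (k : ℤ) * t)⁻¹ =
            t ^ (k : ℤ) * (t * aR r * t⁻¹) * (t ^ (k : ℤ))⁻¹ := by group
        rw [h1, haT, ih, Units.val_mul, hyu, mul_assoc]
      | pred k ih =>
        intro r
        rw [zpow_sub_one, zpow_sub_one]
        have h0 : t⁻¹ * aR r * t = aR ((((yu n)⁻¹ : (Rq n)ˣ) : Rq n) * r) := by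
          have h2 := haT ((((yu n)⁻¹ : (Rq n)ˣ) : Rq n) * r)
          have h3 : y0 n * ((((yu n)⁻¹ : (Rq n)ˣ) : Rq n) * r) = r := by
            rw [← hyu, ← mul_assoc, Units.mul_inv, one_mul]
          rw [h3] at h2
          rw [← h2]
          group
        have h1 : t ^ (-(k : ℤ)) * t⁻¹ * aR r * (t ^ (-(k : ℤ)) * t⁻¹)⁻¹ =
            t ^ (-(k : ℤ)) * (t⁻¹ * aR r * t) * (t ^ (-(k : ℤ)))⁻¹ := by group
        rw [h1, h0, ih, Units.val_mul, mul_assoc]
    refine ⟨(((yu n) ^ (-i) : (Rq n)ˣ) : Rq n), ?_⟩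
    have h1 := hz (-i) 1
    rw [mul_one, aR1] at h1
    show cj a t i = aR _
    rw [← h1]
    simp only [cj]
    group

end Pool.Agent.Helper78.RK
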