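import Pool.Agent.Helper43.RK.St

/-!
# Project RK, module RD
-/

set_option autoImplicit false

namespace Pool.Agent.Helper78.RK

open Pool.Agent.Helper43.RK

lemma comm_of_invol {G : Type} [Group G] {x y : G} (hx : x * x = 1) (hy : y * y = 1)
    (hxy : (x * y) * (x * y) = 1) : x * y = y * x := by
  have hx' : x⁻¹ = x := inv_eq_of_mul_eq_one_left hx
  have hy' : y⁻¹ = y := inv_eq_of_mul_eq_one_left hy
  have h : (x * y)⁻¹ = x * y := inv_eq_of_mul_eq_one_left hxy
  rw [mul_inv_rev, hx', hy'] at h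
  exact h.symm

lemma conj_comm {G : Type} [Group G] {w x g : G} (hw : w * w = 1) (h : Commute x g) :
    Commute (w * x * w) (w * g * w) := by
  show w * x * w * (w * g * w) = w * g * w * (w * x * w)
  calc w * x * w * (w * g * w) = w * x * (w * w) * g * w := by group
    _ = w * (x * g) * w := by rw [hw]; group
    _ = w * (g * x) * w := by rw [h.eq]
    _ = w * g * (w * w) * x * w := by rw [hw]; group
    _ = w * g * w * (w * x * w) := by group

theorem hRD : StRD := by
  intro hRS1 hRN hRT R _ _ G _ D hz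
  obtain ⟨hn2, hnb, hnp, hna1, hnβ, hnS, -, hney⟩ := hRN R G D hz
  obtain ⟨t2, ta1, tc, tb1, -, hp1, hp2, hlast⟩ := hRT hRN R G D hz (D.e : R) D.bar_e
  obtain ⟨hτ0, hmb⟩ := hlast hney
  have hbe := hmb (D.e : R)
  -- names
  obtain ⟨p, hp⟩ : ∃ p, p = D.a (D.y : R) := ⟨_, rfl⟩
  obtain ⟨b, hb⟩ : ∃ b, b = D.b 1 := ⟨_, rfl⟩
  obtain ⟨a, ha⟩ : ∃ a, a = D.a 1 := ⟨_, rfl⟩
  obtain ⟨ae, hae⟩ : ∃ ae, ae = D.a (D.e : R) := ⟨_, rfl⟩
  obtain ⟨be, hbe'⟩ : ∃ be, be = D.b (D.e : R) := ⟨_, rfl⟩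
  obtain ⟨n, hn⟩ : ∃ n, n = D.n := ⟨_, rfl⟩
  obtain ⟨w, hw⟩ : ∃ w, w = D.w := ⟨_, rfl⟩
  obtain ⟨τ0, hτ0'⟩ : ∃ τ0, τ0 = D.tau (D.e : R) := ⟨_, rfl⟩
  obtain ⟨τ1, hτ1⟩ : ∃ τ1, τ1 = D.a (D.e : R) * D.b 1 * D.a (D.e : R) * D.b 1 := ⟨_, rfl⟩
  have hpp : p * p = 1 := by rw [hp]; exact D.aa _
  have hbb : b * b = 1 := by rw [hb]; exact D.bb _
  have haa : a * a = 1 := by rw [ha]; exact D.aa _
  have haeae : ae * ae = 1 := by rw [hae]; exact D.aa _
  have hbebe : be * be = 1 := by rw [hbe']; exact D.bb _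
  have hww : w * w = 1 := by rw [hw]; exact D.ww
  have hnn : n * n = 1 := by rw [hn]; exact hn2
  have hbinv : b⁻¹ = b := inv_eq_of_mul_eq_one_left hbb
  have haeinv : ae⁻¹ = ae := inv_eq_of_mul_eq_one_left haeae
  have hwae : w * ae * w = be := by rw [hw, hae, hbe']; exact D.aw _
  have hwbe : w * be * w = ae := by rw [hw, hae, hbe']; exact D.bw _
  have hwa : w * a * w = b := by rw [hw, ha, hb]; exact D.aw _
  have hwb : w * b * w = a := by rw [hw, ha, hb]; exact D.bw _
  have hndef : n = p * b * p := by rw [hn, hp, hb]; rfl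
  have hdel : D.del = τ0 * τ1 := by
    rw [hτ0', hτ1, ← hτ0]; rfl
  rw [← hp, ← hae, ← hb, ← hτ0'] at hp1 hp2
  rw [← ha, ← hbe', ← hτ0'] at hτ0
  rw [← hae, ← hb] at hτ1
  rw [← hbe', ← hτ0'] at hbe
  rw [← hτ0'] at t2 ta1 tc tb1
  rw [← ha] at ta1
  rw [← hb] at tb1
  rw [← hn, ← hb, ← hp] at hnb
  rw [← hn, ← hbe'] at hney
  -- (A)
  have hQ : D.Q * τ0 * D.Q⁻¹ = τ1 := by
    have h1 := D.aQinv 1
    have h2 := D.bQinv (D.e : R)
    have h3 : (D.y : R) * (D.yb : R) * (D.e : R) = 1 := by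
      have : (D.e : R) = (((D.y * D.yb)⁻¹ : Rˣ) : R) := rfl
      rw [this, ← Units.val_mul, Units.mul_inv]
    rw [mul_one, ← ha, ← hae] at h1
    rw [h3, ← hbe', ← hb] at h2
    rw [← hτ0, hτ1]
    calc D.Q * (a * be * a * be) * D.Q⁻¹ =
        (D.Q * a * D.Q⁻¹) * (D.Q * be * D.Q⁻¹) * (D.Q * a * D.Q⁻¹) * (D.Q * be * D.Q⁻¹) := by group
      _ = ae * b * ae * b := by rw [h1, h2]
  have hτ11 : τ1 * τ1 = 1 := by
    rw [← hQ]
    calc D.Q * τ0 * D.Q⁻¹ * (D.Q * τ0 * D.Q⁻¹) = D.Q * (τ0 * τ0) * D.Q⁻¹ := by group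
      _ = 1 := by rw [t2]; group
  have hτ1inv : τ1⁻¹ = τ1 := inv_eq_of_mul_eq_one_left hτ11
  have hτ0inv : τ0⁻¹ = τ0 := inv_eq_of_mul_eq_one_left t2
  have hτ1' : b * ae * b * ae = τ1 := by
    have : τ1⁻¹ = b * ae * b * ae := by
      rw [hτ1]
      simp only [mul_inv_rev, hbinv, haeinv]
      group
    rw [← this, hτ1inv]
  -- (B)
  have hwτ0 : w * τ0 * w = τ1 := by
    rw [← hτ0, ← hτ1']
    calc w * (a * be * a * be) * w = (w * a * w) * (w * be * w) * (w * a * w) * (w * be * w) := by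
          have : w⁻¹ = w := inv_eq_of_mul_eq_one_left hww
          nth_rw 2 4 6 8 [← this]
          nth_rw 2 [← this]
          group
      _ = b * ae * b * ae := by rw [hwa, hwbe]
  have hwτ1 : w * τ1 * w = τ0 := by
    rw [← hwτ0]
    calc w * (w * τ0 * w) * w = (w * w) * τ0 * (w * w) := by group
      _ = τ0 := by rw [hww]; group
  -- (C)
  have hbaeb : b * ae * b = ae * τ1 := by
    rw [hτ1]
    calc b * ae * b = (1 : G) * b * ae * b := by group
      _ = ae * ae * b * ae * b := by rw [haeae]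
      _ = ae * (ae * b * ae * b) := by group
  have hC : Commute ae τ1 := by
    have h2 : (b * ae * b) * (b * ae * b) = 1 := by
      calc (b * ae * b) * (b * ae * b) = b * ae * (b * b) * ae * b := by group
        _ = b * (ae * ae) * b := by rw [hbb]; group
        _ = 1 := by rw [haeae, mul_one, hbb]
    have h3 : (ae * (b * ae * b)) * (ae * (b * ae * b)) = 1 := by
      have : ae * (b * ae * b) = τ1 := by rw [hτ1]; group
      rw [this, hτ11]
    have h4 := comm_of_invol haeae h2 h3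
    have h5 : Commute ae (b * ae * b) := h4
    have h6 : τ1 = ae * (b * ae * b) := by rw [hτ1]; group
    rw [h6]
    exact (Commute.refl ae).mul_right h5
  -- (D)
  have hp1' : p * τ1 * p = ae * τ0 := by rw [hτ1]; exact hp1
  have hp2' : p * τ0 * p = ae * τ1 := by rw [hp2, ← hτ1]
  have hD : Commute ae τ0 := by
    have h3 : (ae * τ0) * (ae * τ0) = 1 := by
      rw [← hp1']
      calc p * τ1 * p * (p * τ1 * p) = p * τ1 * (p * p) * τ1 * p := by group
        _ = p * (τ1 * τ1) * p := by rw [hpp]; group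
        _ = 1 := by rw [hτ11, mul_one, hpp]
    exact comm_of_invol haeae t2 h3
  -- (i)
  have hi : p * (τ0 * τ1) * p = τ1 * τ0 := by
    calc p * (τ0 * τ1) * p = p * τ0 * (1 : G) * τ1 * p := by group
      _ = p * τ0 * (p * p) * τ1 * p := by rw [hpp]
      _ = (p * τ0 * p) * (p * τ1 * p) := by group
      _ = (ae * τ1) * (ae * τ0) := by rw [hp2', hp1']
      _ = (τ1 * ae) * (ae * τ0) := by rw [hC.eq]
      _ = τ1 * (ae * ae) * τ0 := by group
      _ = τ1 * τ0 := by rw [haeae, mul_one]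
  -- (ii)
  have hbτ0 : Commute τ0 b := tb1
  have hbτ1 : Commute τ1 b := by
    show τ1 * b = b * τ1
    rw [← hτ1']
    have h1 : b * (b * ae * b * ae) = ae * b * ae := by
      calc b * (b * ae * b * ae) = (b * b) * ae * b * ae := by group
        _ = ae * b * ae := by rw [hbb]; group
    rw [h1, hτ1', hτ1]
    calc ae * b * ae * b * b = ae * b * ae * (b * b) := by group
      _ = ae * b * ae := by rw [hbb, mul_one]
  have hδb : Commute (τ0 * τ1) b := hbτ0.mul_left hbτ1
  -- (iii)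
  have hnτ0 : n * τ0 * n = ae := by
    have : τ0 = n * ae * n := by rw [hτ0', hn, hae]; rfl
    rw [this]
    calc n * (n * ae * n) * n = (n * n) * ae * (n * n) := by group
      _ = ae := by rw [hnn]; group
  have hnτ1 : n * τ1 * n = ae * τ0 * τ1 := by
    calc n * τ1 * n = p * b * (p * τ1 * p) * b * p := by rw [hndef]; group
      _ = p * b * (ae * τ0) * b * p := by rw [hp1']
      _ = p * b * ae * (τ0 * b) * p := by group
      _ = p * b * ae * (b * τ0) * p := by rw [tb1]
      _ = p * (b * ae * b) * τ0 * p := by group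
      _ = p * (ae * τ1) * τ0 * p := by rw [hbaeb]
      _ = p * ae * (1 : G) * τ1 * (1 : G) * τ0 * p := by group
      _ = p * ae * (p * p) * τ1 * (p * p) * τ0 * p := by rw [hpp]
      _ = (p * ae * p) * (p * τ1 * p) * (p * τ0 * p) := by group
      _ = (p * ae * p) * (ae * τ0) * (ae * τ1) := by rw [hp1', hp2']
      _ = ae * (ae * τ0) * (ae * τ1) := by
          have : p * ae * p = ae := by
            have h1 : p * ae = ae * p := by rw [hp, hae]; exact D.acomm _ _
            rw [h1, mul_assoc, hpp, mul_one]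
          rw [this]
      _ = (ae * ae) * (τ0 * ae) * τ1 := by group
      _ = (τ0 * ae) * τ1 := by rw [haeae, one_mul]
      _ = ae * τ0 * τ1 := by rw [hD.eq]
  have hiii : n * (τ0 * τ1) * n = τ0 * τ1 := by
    calc n * (τ0 * τ1) * n = n * τ0 * (1 : G) * τ1 * n := by group
      _ = n * τ0 * (n * n) * τ1 * n := by rw [hnn]
      _ = (n * τ0 * n) * (n * τ1 * n) := by group
      _ = ae * (ae * τ0 * τ1) := by rw [hnτ0, hnτ1]
      _ = (ae * ae) * τ0 * τ1 := by group
      _ = τ0 * τ1 := by rw [haeae, one_mul]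
  -- (iv)
  have hbb' : ∀ g : G, Commute g b → b * g * b = g := by
    intro g hg
    rw [← hg.eq, mul_assoc, hbb, mul_one]
  have hδinv : τ0 * τ1 = τ1 * τ0 := by
    have hcb : Commute (τ1 * τ0) b := hbτ1.mul_left hbτ0
    calc τ0 * τ1 = n * (τ0 * τ1) * n := hiii.symm
      _ = b * (p * (b * (τ0 * τ1) * b) * p) * b := by
          nth_rw 1 2 [hnb]
          group
      _ = b * (τ1 * τ0) * b := by rw [hbb' _ hδb, hi]
      _ = τ1 * τ0 := hbb' _ hcb
  have hδ2 : (τ0 * τ1) * (τ0 * τ1) = 1 := by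
    calc (τ0 * τ1) * (τ0 * τ1) = (τ0 * τ1) * (τ1 * τ0) := by rw [← hδinv]
      _ = τ0 * (τ1 * τ1) * τ0 := by group
      _ = 1 := by rw [hτ11, mul_one, t2]
  -- centrality
  have ha0 : Commute τ0 a := ta1
  have ha1 : Commute τ1 a := by
    have h := conj_comm hww hbτ0
    rwa [hwτ0, hwb] at h
  have hδa : Commute (τ0 * τ1) a := ha0.mul_left ha1
  have hδp : Commute (τ0 * τ1) p := by
    show τ0 * τ1 * p = p * (τ0 * τ1)
    have h1 : p * (τ0 * τ1) * p = τ0 * τ1 := by rw [hi, ← hδinv]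
    calc τ0 * τ1 * p = (p * (τ0 * τ1) * p) * p := by rw [h1]
      _ = p * (τ0 * τ1) * (p * p) := by group
      _ = p * (τ0 * τ1) := by rw [hpp, mul_one]
  have hδn : Commute (τ0 * τ1) n := by
    rw [hndef]
    exact (hδp.mul_right hδb).mul_right hδp
  have hδbe : Commute (τ0 * τ1) be := by
    have h0 : Commute τ0 be := hbe
    have h1 : Commute τ1 be := by
      have h := conj_comm hww hD.symm
      rwa [hwτ0, hwae] at h
    exact h0.mul_left h1
  have hδaey : Commute (τ0 * τ1) (D.a ((D.e : R) * (D.y : R))) := by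
    have : D.a ((D.e : R) * (D.y : R)) = n * be * n := by
      rw [← hney]
      calc D.a ((D.e : R) * (D.y : R)) = (1 : G) * D.a ((D.e : R) * (D.y : R)) * (1 : G) := by group
        _ = (n * n) * D.a ((D.e : R) * (D.y : R)) * (n * n) := by rw [hnn]
        _ = n * (n * D.a ((D.e : R) * (D.y : R)) * n) * n := by group
    rw [this]
    exact (hδn.mul_right hδbe).mul_right hδn
  have hδw : Commute (τ0 * τ1) w := by
    show τ0 * τ1 * w = w * (τ0 * τ1)
    have h1 : w * (τ0 * τ1) * w = τ0 * τ1 := by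
      calc w * (τ0 * τ1) * w = w * τ0 * (1 : G) * τ1 * w := by group
        _ = w * τ0 * (w * w) * τ1 * w := by rw [hww]
        _ = (w * τ0 * w) * (w * τ1 * w) := by group
        _ = τ1 * τ0 := by rw [hwτ0, hwτ1]
        _ = τ0 * τ1 := hδinv.symm
    calc τ0 * τ1 * w = (w * (τ0 * τ1) * w) * w := by rw [h1]
      _ = w * (τ0 * τ1) * (w * w) := by group
      _ = w * (τ0 * τ1) := by rw [hww, mul_one]
  have hδbey : Commute (τ0 * τ1) (D.b ((D.e : R) * (D.y : R))) := by
    rw [← D.aw, ← hw]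
    exact (hδw.mul_right hδaey).mul_right hδw
  have hyinv : ((D.y⁻¹ : Rˣ) : R) = (D.e : R) + (D.e : R) * (D.y : R) := by
    have h1 : (D.y : R) * ((D.y⁻¹ : Rˣ) : R) = 1 := Units.mul_inv _
    have h2 : (D.yb : R) * ((D.yb⁻¹ : Rˣ) : R) = 1 := Units.mul_inv _
    have h3 := D.hy
    have he : (D.e : R) = ((D.y⁻¹ : Rˣ) : R) * ((D.yb⁻¹ : Rˣ) : R) := by
      simp only [Dt.e, mul_inv_rev, Units.val_mul]
      ring
    have h4 := D.yb_eq
    rw [he]
    linear_combination -((D.y⁻¹ : Rˣ) : R) * h2 + ((D.y⁻¹ : Rˣ) : R) * ((D.yb⁻¹ : Rˣ) : R) * h4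
  have hδβ : Commute (τ0 * τ1) (D.b ((D.y⁻¹ : Rˣ) : R)) := by
    rw [hyinv, D.b_add, ← hbe']
    exact hδbe.mul_right hδbey
  have hδS : Commute (τ0 * τ1) D.S := by
    have : D.S = n * (a * D.b ((D.y⁻¹ : Rˣ) : R)) * n := by
      rw [ha, hn, ← hnS, ← hn]
      calc D.S = (1 : G) * D.S * (1 : G) := by group
        _ = (n * n) * D.S * (n * n) := by rw [hnn]
        _ = n * (n * D.S * n) * n := by group
    rw [this]
    exact (hδn.mul_right (hδa.mul_right hδβ)).mul_right hδn
  have hall : ∀ r, Commute (τ0 * τ1) (D.a r) := by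
    let T : AddSubgroup R :=
      { carrier := {r | Commute (τ0 * τ1) (D.a r)}
        add_mem' := by
          intro r r' hr hr'
          show Commute (τ0 * τ1) (D.a (r + r'))
          rw [D.a_add]
          exact Commute.mul_right hr hr'
        zero_mem' := by
          show Commute (τ0 * τ1) (D.a 0)
          rw [D.a0]
          exact Commute.one_right _
        neg_mem' := by
          intro r hr
          show Commute (τ0 * τ1) (D.a (-r))
          have : -r = r := by
            have := D.two r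
            exact neg_eq_of_add_eq_zero_left this
          rw [this]
          exact hr }
    have hT : T = ⊤ := by
      apply (hRS1 R G D).1 T
      intro i
      induction i with
      | zero =>
        show Commute (τ0 * τ1) (D.a ((D.s : R) ^ 0))
        rw [pow_zero, ← ha]
        exact hδa
      | succ i ih =>
        show Commute (τ0 * τ1) (D.a ((D.s : R) ^ (i + 1)))
        have : (D.s : R) ^ (i + 1) = (D.s : R) * (D.s : R) ^ i := by ring
        rw [this, ← D.aS]
        exact (hδS.inv_right.mul_right ih).mul_right hδS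
    intro r
    have : r ∈ T := by rw [hT]; trivial
    exact this
  rw [hdel]
  refine ⟨hδ2, ?_⟩
  intro r
  refine ⟨hall r, ?_⟩
  have : Commute (τ0 * τ1) (D.b r) := by
    rw [← D.aw, ← hw]
    exact (hδw.mul_right (hall r)).mul_right hδw
  exact this

end Pool.Agent.Helper78.RK
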